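import Pool.Agent.Work.MP_188050_an.KConv
import Pool.Agent.Work.MP_188050_an.KBands

/-!
# Periodic gaps in the spectrum determine a common period of the Reeb flow

Let `(M, D, g)` be a compact contact sub-Riemannian 3-manifold and `μ` any smooth positive measure.  If the spectrum
of the sub-Riemannian Laplacian eventually misses the periodic gaps `(a + nc, a + nc + d)`, `n ∈ ℤ`, where
`0 < d ≤ c`, then `N · 2π/c` is a period of every orbit of the Reeb flow, where `N` is the least common multiple of
the integers `1, …, ⌊c/d⌋`; in particular `2π/c` is a period if `d > c/2`, for instance if the spectrum is asymptotic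
to `a + cℤ`.  The definitions are in `Pool/Agent/Work/MP_188050_an/SDefs.lean`.
-/

open Set MeasureTheory Filter Topology
open scoped Manifold ContDiff

namespace Pool.Agent.Results.MP_188050_an.BandsForcePeriod

open Pool.Agent.ContactLaplacian

/-- **Spectral bands force the period.**  `M` is a compact 3-manifold with a contact sub-Riemannian structure `S` and
`μ` is a smooth positive measure.  If the spectrum of the sub-Riemannian Laplacian above some `Λ` does not meet the
intervals `(a + nc, a + nc + d)`, `n ∈ ℤ`, with `0 < d ≤ c`, then `lcm (1, …, ⌊c/d⌋) · 2π/c` is a period of every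
integral curve of the Reeb field. -/
theorem result {M : Type*} [TopologicalSpace M] [ChartedSpace (EuclideanSpace ℝ (Fin 3)) M]
    [IsManifold (𝓡 3) ∞ M] [T2Space M] [CompactSpace M] [MeasurableSpace M] [BorelSpace M]
    (S : ContactStr (EuclideanSpace ℝ (Fin 3)) M) (μ : Measure M)
    (hμ : SmoothMeasure (E := EuclideanSpace ℝ (Fin 3)) volume μ) (a c d : ℝ) (hc : 0 < c) (hd : 0 < d)
    (hdc : d ≤ c)
    (hspec : ∃ Λ : ℝ, ∀ s ∈ ContactLaplacian.spectrum S μ, Λ ≤ s →
      ∀ n : ℤ, ¬ (a + n * c < s ∧ s < a + n * c + d))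
    (γ : ℝ → M) (hγ : IsMIntegralCurve γ S.Z) :
    γ (((Finset.Icc 1 ⌊c / d⌋₊).lcm id : ℕ) * (2 * Real.pi / c)) = γ 0 := by
  have hμ' : SRGap.SmoothPositive μ := (SRGap.smoothPositive_iff μ).2 hμ
  have hfin : IsFiniteMeasure μ := SRGap.isFiniteMeasure_of_smoothPositive hμ'
  exact SRGap.bands (SRGap.ofStr S) μ hμ' hc hd hdc (by rw [SRGap.spec_ofStr]; exact hspec) γ hγ

end Pool.Agent.Results.MP_188050_an.BandsForcePeriod
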