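import Pool.Agent.Work.MP_188050_an.KConv

/-!
# Spectral gaps of a contact sub-Riemannian Laplacian force the Reeb flow to be periodic

Let `(M, D, g)` be a compact connected contact sub-Riemannian 3-manifold and `μ` any smooth positive measure.  If,
for some `c > 0`, the spectrum of the sub-Riemannian Laplacian misses intervals `(t - c/2, t + c/2)` with `t`
arbitrarily large, then the Reeb flow is periodic: all orbits have a common period in `(0, 2π/c]`.  The definitions are in `Pool/Agent/Work/MP_188050_an/SDefs.lean`.
-/

open Set MeasureTheory Filter Topology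
open scoped Manifold ContDiff

namespace Pool.Agent.Results.MP_188050_an.GapForcesPeriodic

open Pool.Agent.ContactLaplacian

/-- **Spectral gaps force periodicity of the Reeb flow.**  `M` is a compact connected 3-manifold with a contact
sub-Riemannian structure `S` and `μ` is a smooth positive measure.  If there are arbitrarily large `t` such that
the spectrum of the sub-Riemannian Laplacian does not meet `(t - c/2, t + c/2)`, then there is `T` with
`0 < T ≤ 2π/c` which is a period of every integral curve of the Reeb field. -/
theorem result {M : Type*} [TopologicalSpace M] [ChartedSpace (EuclideanSpace ℝ (Fin 3)) M]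
    [IsManifold (𝓡 3) ∞ M] [T2Space M] [CompactSpace M] [ConnectedSpace M] [MeasurableSpace M] [BorelSpace M]
    (S : ContactStr (EuclideanSpace ℝ (Fin 3)) M) (μ : Measure M)
    (hμ : SmoothMeasure (E := EuclideanSpace ℝ (Fin 3)) volume μ) (c : ℝ) (hc : 0 < c)
    (hgap : ∀ Λ : ℝ, ∃ t ≥ Λ, ∀ s ∈ ContactLaplacian.spectrum S μ, c / 2 ≤ |s - t|) :
    ∃ T : ℝ, 0 < T ∧ T ≤ 2 * Real.pi / c ∧ ∀ γ : ℝ → M, IsMIntegralCurve γ S.Z → γ T = γ 0 := by
  have hμ' : SRGap.SmoothPositive μ := (SRGap.smoothPositive_iff μ).2 hμ
  have hfin : IsFiniteMeasure μ := SRGap.isFiniteMeasure_of_smoothPositive hμ'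
  exact SRGap.besse (SRGap.ofStr S) μ hμ' hc (by rw [SRGap.spec_ofStr]; exact hgap)

end Pool.Agent.Results.MP_188050_an.GapForcesPeriodic
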