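import Pool.Agent.Work.MP_188050_an.KConv

/-!
# Open families of closed Reeb orbits leave an arithmetic progression in the spectrum

Let `(M, D, g)` be a compact contact sub-Riemannian 3-manifold and `μ` any smooth positive measure.  If `ℓ` is a
period of all Reeb orbits through an open set and the minimal period of one of them, then there is a real `β` such
that the distance from `(2πn + β)/ℓ` to the spectrum of the sub-Riemannian Laplacian tends to zero as `n → ∞`.  The
definitions are in `Pool/Agent/Work/MP_188050_an/SDefs.lean`.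
-/

open Set MeasureTheory Filter Topology
open scoped Manifold ContDiff

namespace Pool.Agent.Results.MP_188050_an.PeriodInSpectrum

open Pool.Agent.ContactLaplacian

/-- **The periods of open families of closed Reeb orbits are visible in the spectrum.**  `M` is a compact 3-manifold
with a contact sub-Riemannian structure `S`, `μ` is a smooth positive measure, `W` an open set such that `ℓ > 0` is a
period of every Reeb orbit which starts in `W`, and `γ₀` is one of these orbits with minimal period `ℓ`.  Then there
is `β` such that the distance of `(2πn + β)/ℓ` to the spectrum of the sub-Riemannian Laplacian tends to zero. -/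
theorem result {M : Type*} [TopologicalSpace M] [ChartedSpace (EuclideanSpace ℝ (Fin 3)) M]
    [IsManifold (𝓡 3) ∞ M] [T2Space M] [CompactSpace M] [MeasurableSpace M] [BorelSpace M]
    (S : ContactStr (EuclideanSpace ℝ (Fin 3)) M) (μ : Measure M)
    (hμ : SmoothMeasure (E := EuclideanSpace ℝ (Fin 3)) volume μ) (W : Set M) (hW : IsOpen W) (ℓ : ℝ)
    (hℓ : 0 < ℓ) (hper : ∀ γ : ℝ → M, IsMIntegralCurve γ S.Z → γ 0 ∈ W → γ ℓ = γ 0)
    (γ₀ : ℝ → M) (hγ₀ : IsMIntegralCurve γ₀ S.Z) (h0 : γ₀ 0 ∈ W)
    (hmin : ∀ T : ℝ, 0 < T → T < ℓ → γ₀ T ≠ γ₀ 0) :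
    ∃ β : ℝ, ∀ ε > 0, ∃ Λ : ℝ, ∀ n : ℤ, Λ ≤ n →
      ∃ s ∈ ContactLaplacian.spectrum S μ, |s - (2 * Real.pi * n + β) / ℓ| < ε := by
  have hμ' : SRGap.SmoothPositive μ := (SRGap.smoothPositive_iff μ).2 hμ
  have hfin : IsFiniteMeasure μ := SRGap.isFiniteMeasure_of_smoothPositive hμ'
  exact SRGap.progression_curves (SRGap.ofStr S) μ hμ' hW hℓ hper γ₀ hγ₀ h0 hmin

end Pool.Agent.Results.MP_188050_an.PeriodInSpectrum
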